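import Pool.Agent.DPL.StmtsB

/-!
# Squad DPL, rows PWI and PWR
-/

set_option autoImplicit false

open MeasureTheory

namespace Pool.Agent.DPL.H89

open Pool.Agent.DPL

theorem eq_on {p x μ : ℝ} (hμ : 0 < μ) (hx : μ ≤ x) :
    x ^ 2 * μ ^ (p - 3) - 2 * x * μ ^ (p - 2) + μ ^ (p - 1) =
      (max (x - μ) 0) ^ 2 * μ ^ (p - 3) := by
  have h1 : μ ^ (p - 2) = μ ^ (p - 3) * μ := by
    rw [← Real.rpow_add_one hμ.ne']
    congr 1
    ring
  have h2 : μ ^ (p - 1) = μ ^ (p - 3) * μ * μ := by
    rw [← h1, ← Real.rpow_add_one hμ.ne']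
    congr 1
    ring
  rw [max_eq_left (by linarith), h1, h2]
  ring

/-- PWI -/
theorem pwi : PWIStmt := by
  intro p x M hp hx hM
  have hi3 : IntervalIntegrable (fun μ : ℝ => μ ^ (p - 3)) volume 0 x :=
    intervalIntegral.intervalIntegrable_rpow' (by linarith)
  have hi2 : IntervalIntegrable (fun μ : ℝ => μ ^ (p - 2)) volume 0 x :=
    intervalIntegral.intervalIntegrable_rpow' (by linarith)
  have hi1 : IntervalIntegrable (fun μ : ℝ => μ ^ (p - 1)) volume 0 x :=
    intervalIntegral.intervalIntegrable_rpow' (by linarith)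
  have hg : IntervalIntegrable (fun μ : ℝ => x ^ 2 * μ ^ (p - 3) - 2 * x * μ ^ (p - 2) +
      μ ^ (p - 1)) volume 0 x :=
    ((hi3.const_mul _).sub (hi2.const_mul _)).add hi1
  have hae : (fun μ : ℝ => x ^ 2 * μ ^ (p - 3) - 2 * x * μ ^ (p - 2) + μ ^ (p - 1))
      =ᵐ[volume.restrict (Set.uIoc 0 x)]
      (fun μ : ℝ => (max (x - μ) 0) ^ 2 * μ ^ (p - 3)) := by
    rw [Set.uIoc_of_le hx]
    filter_upwards [ae_restrict_mem measurableSet_Ioc] with μ hμ
    exact eq_on hμ.1 hμ.2
  have hz : (fun _ : ℝ => (0 : ℝ)) =ᵐ[volume.restrict (Set.uIoc x M)]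
      (fun μ : ℝ => (max (x - μ) 0) ^ 2 * μ ^ (p - 3)) := by
    rw [Set.uIoc_of_le hM]
    filter_upwards [ae_restrict_mem measurableSet_Ioc] with μ hμ
    rw [max_eq_right (by linarith [hμ.1])]
    ring
  have ha : IntervalIntegrable (fun μ : ℝ => (max (x - μ) 0) ^ 2 * μ ^ (p - 3)) volume 0 x :=
    hg.congr_ae hae
  have hb : IntervalIntegrable (fun μ : ℝ => (max (x - μ) 0) ^ 2 * μ ^ (p - 3)) volume x M :=
    (intervalIntegrable_const (c := (0 : ℝ))).congr_ae hz
  refine ⟨ha.trans hb, ?_⟩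
  rw [← intervalIntegral.integral_add_adjacent_intervals ha hb]
  have e1 : ∫ μ in x..M, (max (x - μ) 0) ^ 2 * μ ^ (p - 3) = 0 := by
    rw [← intervalIntegral.integral_congr_ae_restrict hz]
    simp
  have e2 : ∫ μ in (0 : ℝ)..x, (max (x - μ) 0) ^ 2 * μ ^ (p - 3) =
      x ^ p * (2 / (p * (p - 1) * (p - 2))) := by
    rw [← intervalIntegral.integral_congr_ae_restrict hae]
    rw [intervalIntegral.integral_add ((hi3.const_mul _).sub (hi2.const_mul _)) hi1,
      intervalIntegral.integral_sub (hi3.const_mul _) (hi2.const_mul _),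
      intervalIntegral.integral_const_mul, intervalIntegral.integral_const_mul,
      integral_rpow (Or.inl (by linarith)), integral_rpow (Or.inl (by linarith)),
      integral_rpow (Or.inl (by linarith))]
    have z1 : (0 : ℝ) ^ (p - 3 + 1) = 0 := Real.zero_rpow (by linarith)
    have z2 : (0 : ℝ) ^ (p - 2 + 1) = 0 := Real.zero_rpow (by linarith)
    have z3 : (0 : ℝ) ^ (p - 1 + 1) = 0 := Real.zero_rpow (by linarith)
    rw [z1, z2, z3]
    rcases hx.eq_or_lt with h0 | h0
    · rw [← h0]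
      have z4 : (0 : ℝ) ^ p = 0 := Real.zero_rpow (by linarith)
      rw [z1, z2, z3, z4]
      ring
    · have y1 : x ^ (p - 3 + 1) * x * x = x ^ p := by
        rw [← Real.rpow_add_one h0.ne', ← Real.rpow_add_one h0.ne']
        congr 1
        ring
      have y2 : x ^ (p - 2 + 1) * x = x ^ p := by
        rw [← Real.rpow_add_one h0.ne']
        congr 1
        ring
      have y3 : x ^ (p - 1 + 1) = x ^ p := by
        congr 1
        ring
      rw [y3, ← y2, ← (by rw [y2, y1] : x ^ (p - 3 + 1) * x * x = x ^ (p - 2 + 1) * x)]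
      have q1 : p ≠ 0 := by linarith
      have q2 : p - 1 ≠ 0 := by linarith
      have q3 : p - 2 ≠ 0 := by linarith
      have q4 : p - 3 + 1 ≠ 0 := by linarith
      have q5 : p - 2 + 1 ≠ 0 := by linarith
      have q6 : p - 1 + 1 ≠ 0 := by linarith
      have w1 : p - 3 + 1 = p - 2 := by ring
      have w2 : p - 2 + 1 = p - 1 := by ring
      have w3 : p - 1 + 1 = p := by ring
      have y4 : x * x ^ (p - 2 + 1) = x ^ (p - 3 + 1) * x * x := by rw [mul_comm, y2, y1]
      have y5 : 2 * x * ((x ^ (p - 2 + 1) - 0) / (p - 2 + 1)) =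
          2 * (x ^ (p - 3 + 1) * x * x) / (p - 2 + 1) := by
        rw [sub_zero, ← y4]
        ring
      rw [y5]
      generalize x ^ (p - 3 + 1) = X
      rw [w1, w2, w3]
      field_simp
      ring
  rw [e1, e2, add_zero]

theorem int_sum {ι : Type} (s : Finset ι) (f : ι → ℝ → ℝ) (M : ℝ)
    (h : ∀ i ∈ s, IntervalIntegrable (f i) volume 0 M) :
    IntervalIntegrable (fun μ => ∑ i ∈ s, f i μ) volume 0 M := by
  have h1 := IntervalIntegrable.sum s h
  have e : (∑ i ∈ s, f i) = fun μ => ∑ i ∈ s, f i μ := by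
    funext μ
    rw [Finset.sum_apply]
  rwa [e] at h1

/-- PWR -/
theorem pwr : PWRStmt := by
  intro ι s x z p hp hx hz h
  rcases hp.eq_or_lt with h2 | h2
  · have h0 := h 0 le_rfl
    rw [← h2]
    have e : ∀ y : ℝ, 0 ≤ y → (max (y - 0) 0) ^ 2 = y ^ (2 : ℝ) := by
      intro y hy
      rw [sub_zero, max_eq_left hy]
      norm_num
    rw [Finset.sum_congr rfl (fun i hi => e (x i) (hx i hi)),
      Finset.sum_congr rfl (fun i hi => e (z i) (hz i hi))] at h0
    exact h0
  · have hsx : ∀ i ∈ s, x i ≤ ∑ j ∈ s, (x j + z j) := by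
      intro i hi
      refine le_trans ?_ (Finset.single_le_sum (f := fun j => x j + z j)
        (fun j hj => add_nonneg (hx j hj) (hz j hj)) hi)
      linarith [hz i hi]
    have hsz : ∀ i ∈ s, z i ≤ ∑ j ∈ s, (x j + z j) := by
      intro i hi
      refine le_trans ?_ (Finset.single_le_sum (f := fun j => x j + z j)
        (fun j hj => add_nonneg (hx j hj) (hz j hj)) hi)
      linarith [hx i hi]
    have hM : 0 ≤ ∑ j ∈ s, (x j + z j) :=
      Finset.sum_nonneg (fun j hj => add_nonneg (hx j hj) (hz j hj))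
    generalize (∑ j ∈ s, (x j + z j)) = M at hsx hsz hM
    have hc : 0 < 2 / (p * (p - 1) * (p - 2)) := by
      have : 0 < p * (p - 1) * (p - 2) :=
        mul_pos (mul_pos (by linarith) (by linarith)) (by linarith)
      positivity
    have key : (∑ i ∈ s, x i ^ p) * (2 / (p * (p - 1) * (p - 2))) ≤
        (∑ i ∈ s, z i ^ p) * (2 / (p * (p - 1) * (p - 2))) := by
      rw [Finset.sum_mul, Finset.sum_mul,
        ← Finset.sum_congr rfl (fun i hi => (pwi p (x i) M h2 (hx i hi) (hsx i hi)).2),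
        ← Finset.sum_congr rfl (fun i hi => (pwi p (z i) M h2 (hz i hi) (hsz i hi)).2),
        ← intervalIntegral.integral_finsetSum
          (fun i hi => (pwi p (x i) M h2 (hx i hi) (hsx i hi)).1),
        ← intervalIntegral.integral_finsetSum
          (fun i hi => (pwi p (z i) M h2 (hz i hi) (hsz i hi)).1)]
      refine intervalIntegral.integral_mono_on hM
        (int_sum s _ M (fun i hi => (pwi p (x i) M h2 (hx i hi) (hsx i hi)).1))
        (int_sum s _ M (fun i hi => (pwi p (z i) M h2 (hz i hi) (hsz i hi)).1)) ?_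
      intro μ hμ
      rw [← Finset.sum_mul, ← Finset.sum_mul]
      exact mul_le_mul_of_nonneg_right (h μ hμ.1) (Real.rpow_nonneg hμ.1 _)
    exact le_of_mul_le_mul_right key hc

end Pool.Agent.DPL.H89
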